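import Pool.Agent.Y812.EV.Phi

/-!
# Project EV: law of the iterated logarithm, lower bound
-/

set_option autoImplicit false

open MeasureTheory Filter Topology Set

namespace Pool.Agent.Y812.EV

open Pool.Agent.Y41.EV

/-- density points of sets which need not be measurable -/
theorem dens {s : Set ℝ} (hs : s ⊆ Icc 0 1) (h : volume s ≠ 0) {e : ℝ} (he : 0 < e) :
    ∃ a b : ℝ, 0 ≤ a ∧ a < b ∧ b ≤ 1 ∧
      ENNReal.ofReal ((1 - e) * (b - a)) ≤ volume (s ∩ Icc a b) := by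
  have h1 := Besicovitch.ae_tendsto_measure_inter_div (volume : Measure ℝ) s
  have h2 : ∀ᵐ x ∂(volume.restrict s), x ∈ Ioo (0:ℝ) 1 := by
    refine ae_restrict_of_ae_restrict_of_subset hs ?_
    rw [← Measure.restrict_congr_set (Ioo_ae_eq_Icc (α := ℝ) (μ := volume) (a := 0) (b := 1))]
    exact ae_restrict_mem measurableSet_Ioo
  have h3 : (ae (volume.restrict s)).NeBot := by
    rw [ae_neBot]
    intro h4
    exact h (Measure.restrict_eq_zero.1 h4)
  obtain ⟨x, hx1, hx2⟩ := (h1.and h2).exists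
  have h4 : ENNReal.ofReal (1 - e) < 1 := by
    rw [ENNReal.ofReal_lt_one]
    linarith
  have h5 := hx1.eventually (lt_mem_nhds h4)
  have h6 : 0 < min x (1 - x) := lt_min hx2.1 (by linarith [hx2.2])
  have h7 : ∀ᶠ r in 𝓝[>] (0:ℝ), r ∈ Ioo 0 (min x (1 - x)) := Ioo_mem_nhdsGT h6
  obtain ⟨r, hr1, hr2⟩ := (h5.and h7).exists
  have h8 : r < x := hr2.2.trans_le (min_le_left _ _)
  have h9 : r < 1 - x := hr2.2.trans_le (min_le_right _ _)
  have hr0 := hr2.1
  refine ⟨x - r, x + r, by linarith, by linarith, by linarith, ?_⟩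
  rw [Real.volume_closedBall] at hr1
  have h10 : ENNReal.ofReal (2 * r) ≠ 0 := by
    rw [Ne, ENNReal.ofReal_eq_zero, not_le]
    linarith
  have h11 := (ENNReal.le_div_iff_mul_le (Or.inl h10) (Or.inl ENNReal.ofReal_ne_top)).1 hr1.le
  rw [← Real.closedBall_eq_Icc]
  refine le_trans (le_of_eq ?_) h11
  rw [← ENNReal.ofReal_mul' (by linarith)]
  congr 1
  ring

lemma cov_ex (τ : ℕ → ℝ) (x : ℝ) (h0 : τ 0 ≤ x) : ∀ n : ℕ, 0 < n → x ≤ τ n →
    ∃ i < n, τ i ≤ x ∧ x ≤ τ (i + 1) := by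
  intro n
  induction n with
  | zero => intro h; exact absurd h (lt_irrefl 0)
  | succ n ih =>
    intro _ hn
    rcases Nat.eq_zero_or_pos n with h | h
    · subst h
      exact ⟨0, Nat.one_pos, h0, hn⟩
    · rcases le_total x (τ n) with h1 | h1
      · obtain ⟨i, hi, h2⟩ := ih h h1
        exact ⟨i, hi.trans (Nat.lt_succ_self n), h2⟩
      · exact ⟨n, Nat.lt_succ_self n, h1, hn⟩

/-- the exceptional sets -/
def EX (f : C(unitInterval, ℂ)) (T c' : ℝ) (k : ℕ) : Set unitInterval :=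
  {t | ∀ s : unitInterval, |(s : ℝ) - t| < 1 / ((k : ℝ) + 1) →
    dist (f s) (f t) ≤ c' * phi (T * |(s : ℝ) - t|)}

theorem null {c C c' T : ℝ} (hc : 0 < c) (hC : 0 < C) (hc0 : 0 < c') (hc1 : c' ≤ 1)
    (hc2 : 6 * c' ^ (7/4 : ℝ) ≤ c / 8) {f : C(unitInterval, ℂ)} (hT : 0 < T) (hU : UPF f T C)
    (hL : LOF f T c) (k : ℕ) : volume (EX f T c' k) = 0 := by
  classical
  by_contra hne
  rw [unitInterval.volume_apply] at hne
  have he : 0 < c / (8 * C) := by positivity
  obtain ⟨a, b, ha, hab, hb, hvol⟩ := dens (s := Subtype.val '' (EX f T c' k))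
    (by rintro _ ⟨x, -, rfl⟩; exact x.2) hne he
  obtain ⟨A, hA⟩ : ∃ A : unitInterval, (A : ℝ) = a := ⟨⟨a, ha, by linarith⟩, rfl⟩
  obtain ⟨B, hB⟩ : ∃ B : unitInterval, (B : ℝ) = b := ⟨⟨b, by linarith, hb⟩, rfl⟩
  have hba : 0 < b - a := by linarith
  obtain ⟨η1, hη1, hup⟩ := hU (c / 8 * T * (b - a)) (by positivity)
  have hsp := hs_pos
  obtain ⟨η, hηd⟩ : ∃ η, η = min η1 (min (hs / T) (1 / (2 * ((k : ℝ) + 1)))) := ⟨_, rfl⟩
  have hη : 0 < η := by
    rw [hηd]
    positivity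
  have hη1' : η ≤ η1 := by rw [hηd]; exact min_le_left _ _
  have hη2 : T * η ≤ hs := by
    have : η ≤ hs / T := by rw [hηd]; exact (min_le_right _ _).trans (min_le_left _ _)
    rw [le_div_iff₀ hT] at this
    linarith
  have hη3 : η < 1 / ((k : ℝ) + 1) := by
    have : η ≤ 1 / (2 * ((k : ℝ) + 1)) := by
      rw [hηd]; exact (min_le_right _ _).trans (min_le_right _ _)
    refine this.trans_lt ?_
    refine one_div_lt_one_div_of_lt (by positivity) ?_
    have : (0 : ℝ) ≤ k := Nat.cast_nonneg k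
    linarith
  have hAB : A ≤ B := by
    show (A : ℝ) ≤ B
    rw [hA, hB]
    exact hab.le
  obtain ⟨n, τ, hmono, hτ0, hτn, hmesh, hsum⟩ := hL A B hAB η hη (c / 2 * T * (b - a)) (by
    rw [hA, hB]
    have : 0 < c * T * (b - a) := by positivity
    nlinarith)
  have hτ0' : (τ 0 : ℝ) = a := by rw [hτ0, hA]
  have hτn' : (τ n : ℝ) = b := by rw [hτn, hB]
  have hn : 0 < n := by
    rcases Nat.eq_zero_or_pos n with h | h
    · subst h
      rw [hτ0'] at hτn'
      linarith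
    · exact h
  have hstep : ∀ i, (τ i : ℝ) ≤ τ (i + 1) := fun i => hmono (Nat.le_succ i)
  obtain ⟨P, hP⟩ : ∃ P : ℕ → Prop, P = fun i => ∃ t ∈ EX f T c' k, τ i ≤ t ∧ t ≤ τ (i + 1) :=
    ⟨_, rfl⟩
  -- the lengths
  obtain ⟨LG, hLG⟩ : ∃ LG, LG = ∑ i ∈ Finset.range n,
    (if P i then ((τ (i + 1) : ℝ) - τ i) else 0) := ⟨_, rfl⟩
  obtain ⟨LB, hLB⟩ : ∃ LB, LB = ∑ i ∈ Finset.range n,
    (if P i then 0 else ((τ (i + 1) : ℝ) - τ i)) := ⟨_, rfl⟩
  have htot : LG + LB = b - a := by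
    have hs1 := Finset.sum_range_sub (fun i => (τ i : ℝ)) n
    rw [hLG, hLB, ← Finset.sum_add_distrib, ← hτn', ← hτ0', ← hs1]
    refine Finset.sum_congr rfl fun i _ => ?_
    split_ifs <;> ring
  have hLB0 : 0 ≤ LB := by
    rw [hLB]
    refine Finset.sum_nonneg fun i _ => ?_
    split_ifs
    · exact le_rfl
    · linarith [hstep i]
  have hLG0 : 0 ≤ LG := by
    rw [hLG]
    refine Finset.sum_nonneg fun i _ => ?_
    split_ifs
    · linarith [hstep i]
    · exact le_rfl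
  have hLGv : (1 - c / (8 * C)) * (b - a) ≤ LG := by
    have h1 : (Subtype.val '' (EX f T c' k)) ∩ Icc a b ⊆
        ⋃ i ∈ Finset.range n, (if P i then Icc (τ i : ℝ) (τ (i + 1)) else ∅) := by
      rintro _ ⟨⟨x, hx, rfl⟩, hx2⟩
      obtain ⟨i, hi, h3, h4⟩ := cov_ex (fun i => (τ i : ℝ)) x (by
        show (τ 0 : ℝ) ≤ x
        rw [hτ0']; exact hx2.1) n hn (by
        show (x : ℝ) ≤ τ n
        rw [hτn']; exact hx2.2)
      rw [mem_iUnion₂]
      refine ⟨i, Finset.mem_range.2 hi, ?_⟩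
      rw [if_pos (by rw [hP]; exact ⟨x, hx, h3, h4⟩)]
      exact ⟨h3, h4⟩
    have h2 : volume ((Subtype.val '' (EX f T c' k)) ∩ Icc a b) ≤ ENNReal.ofReal LG := by
      refine (measure_mono h1).trans ?_
      refine (measure_biUnion_finset_le _ _).trans ?_
      rw [hLG, ENNReal.ofReal_sum_of_nonneg]
      · refine Finset.sum_le_sum fun i _ => ?_
        split_ifs
        · rw [Real.volume_Icc]
        · simp
      · intro i _
        split_ifs
        · linarith [hstep i]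
        · exact le_rfl
    exact (ENNReal.ofReal_le_ofReal_iff hLG0).1 (hvol.trans h2)
  have hLBv : LB ≤ c / (8 * C) * (b - a) := by nlinarith
  -- the upper bound for the bad intervals
  have hbad := hup n τ (fun i => if P i then τ i else τ (i + 1)) (by
    intro i hi
    split_ifs with h
    · exact ⟨le_rfl, by simpa using hη1.le⟩
    · exact ⟨hstep i, (hmesh i hi).trans hη1'⟩) (by
    intro i j hij _
    split_ifs with h
    · exact hmono hij.le
    · exact hmono hij)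
  have hbad2 : ∑ i ∈ Finset.range n, (((if P i then τ i else τ (i + 1) : unitInterval) : ℝ) - τ i)
      = LB := by
    rw [hLB]
    refine Finset.sum_congr rfl fun i _ => ?_
    split_ifs <;> simp
  rw [hbad2] at hbad
  -- the sum
  have hsum2 : ∑ i ∈ Finset.range n, psi (dist (f (τ i)) (f (τ (i + 1)))) ≤
      ∑ i ∈ Finset.range n, (6 * c' ^ (7/4 : ℝ) * (T * (if P i then ((τ (i + 1) : ℝ) - τ i) else 0))
        + psi (dist (f (τ i)) (f (if P i then τ i else τ (i + 1))))) := by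
    refine Finset.sum_le_sum fun i hi => ?_
    rw [Finset.mem_range] at hi
    split_ifs with h
    · rw [dist_self, psi_zero, add_zero]
      have h' := h
      rw [hP] at h'
      obtain ⟨t, ht, ht1, ht2⟩ := h'
      have ht1' : (τ i : ℝ) ≤ t := ht1
      have ht2' : (t : ℝ) ≤ τ (i + 1) := ht2
      have hm := hmesh i hi
      have e1 : |(τ i : ℝ) - t| ≤ τ (i + 1) - τ i := by
        rw [abs_of_nonpos (by linarith)]; linarith
      have e2 : |(τ (i + 1) : ℝ) - t| ≤ τ (i + 1) - τ i := by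
        rw [abs_of_nonneg (by linarith)]; linarith
      have e3 : T * ((τ (i + 1) : ℝ) - τ i) ≤ hs := by
        refine le_trans ?_ hη2
        gcongr
      have e4 : ∀ s : unitInterval, |(s : ℝ) - t| ≤ τ (i + 1) - τ i →
          dist (f s) (f t) ≤ c' * phi (T * ((τ (i + 1) : ℝ) - τ i)) := by
        intro s hs'
        refine (ht s ((hs'.trans hm).trans_lt hη3)).trans ?_
        refine mul_le_mul_of_nonneg_left ?_ hc0.le
        refine phi_mono (by positivity) ?_ (e3.trans hs_le)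
        gcongr
      have e5 := e4 _ e1
      have e6 := e4 _ e2
      have e7 : dist (f (τ i)) (f (τ (i + 1))) ≤ 2 * c' * phi (T * ((τ (i + 1) : ℝ) - τ i)) := by
        have := dist_triangle_right (f (τ i)) (f (τ (i + 1))) (f t)
        linarith
      exact psi_bd hc0 hc1 (mul_nonneg hT.le (by linarith [hstep i])) e3 dist_nonneg e7
    · rw [mul_zero, mul_zero, zero_add]
  rw [Finset.sum_add_distrib, ← Finset.mul_sum, ← Finset.mul_sum, ← hLG] at hsum2
  have hfin : c / 2 * T * (b - a) ≤ 6 * c' ^ (7/4 : ℝ) * (T * LG) +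
      (C * T * LB + c / 8 * T * (b - a)) := by
    refine hsum.trans (hsum2.trans ?_)
    linarith
  have g1 : 6 * c' ^ (7/4 : ℝ) * (T * LG) ≤ c / 8 * (T * (b - a)) := by
    have : LG ≤ b - a := by linarith
    gcongr
  have g2 : C * T * LB ≤ c / 8 * (T * (b - a)) := by
    calc C * T * LB ≤ C * T * (c / (8 * C) * (b - a)) := by gcongr
      _ = c / 8 * (T * (b - a)) := by field_simp
  have g3 : 0 < c * (T * (b - a)) := by positivity
  nlinarith

theorem lillow : S_LILLOW := by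
  intro c C hc hC
  have hc4 : 0 < (c / 48) ^ (4/7 : ℝ) := by positivity
  refine ⟨min 1 ((c / 48) ^ (4/7 : ℝ)), lt_min one_pos hc4, ?_⟩
  obtain ⟨c', hc'⟩ : ∃ c', c' = min 1 ((c / 48) ^ (4/7 : ℝ)) := ⟨_, rfl⟩
  rw [← hc']
  have hc0 : 0 < c' := by rw [hc']; exact lt_min one_pos hc4
  have hc1 : c' ≤ 1 := by rw [hc']; exact min_le_left _ _
  have hc2 : 6 * c' ^ (7/4 : ℝ) ≤ c / 8 := by
    have h1 : c' ≤ (c / 48) ^ (4/7 : ℝ) := by rw [hc']; exact min_le_right _ _
    have h2 : c' ^ (7/4 : ℝ) ≤ ((c / 48) ^ (4/7 : ℝ)) ^ (7/4 : ℝ) := by gcongr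
    rw [← Real.rpow_mul (by positivity)] at h2
    norm_num at h2
    linarith
  intro f T hT hU hL
  have h1 : ∀ᵐ t : unitInterval, ∀ k : ℕ, t ∉ EX f T c' k :=
    ae_all_iff.2 fun k => measure_eq_zero_iff_ae_notMem.1 (null hc hC hc0 hc1 hc2 hT hU hL k)
  filter_upwards [h1] with t ht
  by_contra hcon
  rw [not_frequently] at hcon
  obtain ⟨ε, hε, hball⟩ := Metric.eventually_nhds_iff.1 hcon
  obtain ⟨k, hk⟩ := exists_nat_one_div_lt hε
  refine ht k fun s hs' => not_lt.1 (hball ?_)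
  rw [Subtype.dist_eq, Real.dist_eq]
  exact hs'.trans hk

end Pool.Agent.Y812.EV
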