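import Pool.Agent.Y41.EV.StmD

/-!
# Project EV: elementary inequalities for `psi` and `phi`
-/

set_option autoImplicit false

open MeasureTheory Filter Topology Set

namespace Pool.Agent.Y812.EV

open Pool.Agent.Y41.EV

lemma ll_ratio {x h : ℝ} (hx : 0 < x) (hxh : x ≤ h) (hh : h ≤ Real.exp (-1)) :
    ll x ≤ ll h * (h / x) := by
  have hh0 : 0 < h := hx.trans_le hxh
  have hL : 1 ≤ Real.log (1 / h) := by
    rw [one_div, Real.log_inv]
    have := Real.log_le_log hh0 hh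
    rw [Real.log_exp] at this
    linarith
  obtain ⟨L, hLd⟩ : ∃ L, L = Real.log (1 / h) := ⟨_, rfl⟩
  obtain ⟨u, hud⟩ : ∃ u, u = h / x := ⟨_, rfl⟩
  rw [← hLd] at hL
  have hu : 1 ≤ u := by rw [hud]; exact (one_le_div hx).2 hxh
  have hlu : 0 ≤ Real.log u := Real.log_nonneg hu
  have h1 : Real.log (1 / x) = L + Real.log u := by
    rw [hLd, hud, ← Real.log_mul (by positivity) (by positivity)]
    congr 1
    field_simp
  have h2 : Real.log (L + Real.log u) ≤ Real.log L + Real.log u := by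
    have h3 : L + Real.log u = L * (1 + Real.log u / L) := by field_simp
    have h4 : 0 ≤ Real.log u / L := by positivity
    rw [h3, Real.log_mul (by positivity) (by positivity)]
    have h5 := Real.log_le_sub_one_of_pos (x := 1 + Real.log u / L) (by positivity)
    have h6 : Real.log u / L ≤ Real.log u := div_le_self hlu hL
    linarith
  have h4 : ll x ≤ ll h + Real.log u := by
    unfold ll
    rw [h1, ← hLd]
    refine max_le ?_ ?_
    · have := le_max_left 1 (Real.log L)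
      linarith
    · have := le_max_right 1 (Real.log L)
      linarith
  have h5 : 1 + Real.log u ≤ u := by
    have := Real.log_le_sub_one_of_pos (x := u) (by positivity)
    linarith
  have h6 := ll_ge h
  rw [← hud]
  nlinarith [mul_le_mul_of_nonneg_left h5 (ll_pos h).le, mul_nonneg hlu (sub_nonneg.2 h6)]

lemma phi_zero : phi 0 = 0 := by
  unfold phi
  rw [Real.zero_rpow (by norm_num), zero_mul]

lemma phi_nonneg {h : ℝ} (hh : 0 ≤ h) : 0 ≤ phi h := by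
  unfold phi
  have := ll_pos h
  positivity

lemma phi_mono {x h : ℝ} (hx : 0 ≤ x) (hxh : x ≤ h) (hh : h ≤ Real.exp (-1)) :
    phi x ≤ phi h := by
  rcases hx.eq_or_lt with h0 | h0
  · rw [← h0, phi_zero]
    exact phi_nonneg (h0 ▸ hxh)
  have hh0 : 0 < h := h0.trans_le hxh
  have h1 := ll_ratio h0 hxh hh
  have h2 := ll_pos h
  have h3 := ll_pos x
  unfold phi
  calc x ^ (4/7 : ℝ) * ll x ^ (3/7 : ℝ) ≤ x ^ (4/7 : ℝ) * (ll h * (h / x)) ^ (3/7 : ℝ) := by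
        gcongr
    _ = x ^ (4/7 : ℝ) / x ^ (3/7 : ℝ) * h ^ (3/7 : ℝ) * ll h ^ (3/7 : ℝ) := by
        rw [Real.mul_rpow h2.le (by positivity), Real.div_rpow hh0.le h0.le]
        ring
    _ = x ^ (1/7 : ℝ) * h ^ (3/7 : ℝ) * ll h ^ (3/7 : ℝ) := by
        rw [← Real.rpow_sub h0]
        norm_num
    _ ≤ h ^ (1/7 : ℝ) * h ^ (3/7 : ℝ) * ll h ^ (3/7 : ℝ) := by gcongr
    _ = h ^ (4/7 : ℝ) * ll h ^ (3/7 : ℝ) := by
        rw [← Real.rpow_add hh0]
        norm_num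

lemma ll_le {h : ℝ} (h0 : 0 < h) (h1 : h ≤ 1) : ll h ≤ 14 * h ^ (-(1/14) : ℝ) := by
  have e1 : (1:ℝ) ≤ h ^ (-(1/14) : ℝ) :=
    Real.one_le_rpow_of_pos_of_le_one_of_nonpos h0 h1 (by norm_num)
  have e2 : Real.log (1 / h) ≤ (1 / h) ^ (1/14 : ℝ) / (1/14) :=
    Real.log_le_rpow_div (by positivity) (by norm_num)
  have e3 : (1 / h) ^ (1/14 : ℝ) = h ^ (-(1/14) : ℝ) := by
    rw [one_div, Real.inv_rpow h0.le, Real.rpow_neg h0.le]
  have e4 : 0 ≤ Real.log (1 / h) := Real.log_nonneg (by rw [le_div_iff₀ h0]; linarith)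
  have e5 : Real.log (Real.log (1 / h)) ≤ Real.log (1 / h) := Real.log_le_self e4
  rw [e3] at e2
  unfold ll
  refine max_le (by linarith) ?_
  refine e5.trans (e2.trans (le_of_eq ?_))
  ring

/-- the small range -/
noncomputable def hs : ℝ := min (Real.exp (-1)) ((1/28 : ℝ) ^ (49/2 : ℝ))

lemma hs_pos : 0 < hs := lt_min (Real.exp_pos _) (by positivity)

lemma hs_le : hs ≤ Real.exp (-1) := min_le_left _ _

lemma hs_le_one : hs ≤ 1 := hs_le.trans (Real.exp_le_one_iff.2 (by norm_num))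

lemma phi_small {h : ℝ} (h0 : 0 < h) (h1 : h ≤ hs) : 2 * phi h ≤ h ^ (1/2 : ℝ) := by
  have e1 := ll_le h0 (h1.trans hs_le_one)
  have e2 : h ^ (2/49 : ℝ) ≤ 1/28 := by
    have e3 : h ≤ (1/28 : ℝ) ^ (49/2 : ℝ) := h1.trans (min_le_right _ _)
    calc h ^ (2/49 : ℝ) ≤ ((1/28 : ℝ) ^ (49/2 : ℝ)) ^ (2/49 : ℝ) := by gcongr
      _ = 1/28 := by
        rw [← Real.rpow_mul (by norm_num)]
        norm_num
  have e4 : ll h ^ (3/7 : ℝ) ≤ 14 * h ^ (-(3/98) : ℝ) := by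
    have h2 := ll_pos h
    calc ll h ^ (3/7 : ℝ) ≤ (14 * h ^ (-(1/14) : ℝ)) ^ (3/7 : ℝ) := by gcongr
      _ = 14 ^ (3/7 : ℝ) * h ^ (-(3/98) : ℝ) := by
        rw [Real.mul_rpow (by norm_num) (by positivity), ← Real.rpow_mul h0.le]
        norm_num
      _ ≤ 14 ^ (1 : ℝ) * h ^ (-(3/98) : ℝ) := by
        gcongr
        · norm_num
        · norm_num
      _ = _ := by rw [Real.rpow_one]
  have e5 : h ^ (4/7 : ℝ) * h ^ (-(3/98) : ℝ) = h ^ (1/2 : ℝ) * h ^ (2/49 : ℝ) := by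
    rw [← Real.rpow_add h0, ← Real.rpow_add h0]
    norm_num
  have e6 : 0 < h ^ (1/2 : ℝ) := by positivity
  unfold phi
  calc 2 * (h ^ (4/7 : ℝ) * ll h ^ (3/7 : ℝ)) ≤ 2 * (h ^ (4/7 : ℝ) * (14 * h ^ (-(3/98) : ℝ))) := by
        gcongr
    _ = 28 * (h ^ (4/7 : ℝ) * h ^ (-(3/98) : ℝ)) := by ring
    _ = 28 * h ^ (1/2 : ℝ) * h ^ (2/49 : ℝ) := by rw [e5]; ring
    _ ≤ 28 * h ^ (1/2 : ℝ) * (1/28) := by gcongr
    _ = _ := by ring

lemma ll_half {h : ℝ} (h0 : 0 < h) (h1 : h ≤ hs) : ll h / 2 ≤ ll (h ^ (1/2 : ℝ)) := by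
  have hL : 1 ≤ Real.log (1 / h) := by
    rw [one_div, Real.log_inv]
    have := Real.log_le_log h0 (h1.trans hs_le)
    rw [Real.log_exp] at this
    linarith
  have e1 : Real.log (1 / h ^ (1/2 : ℝ)) = Real.log (1 / h) / 2 := by
    rw [one_div (h ^ (1/2 : ℝ)), one_div h, Real.log_inv, Real.log_inv, Real.log_rpow h0]
    ring
  unfold ll
  rw [e1]
  obtain ⟨L, hLd⟩ : ∃ L, L = Real.log (1 / h) := ⟨_, rfl⟩
  rw [← hLd] at hL ⊢
  have h5 := le_max_left 1 (Real.log (L / 2))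
  rcases le_total (Real.log L) 2 with h2 | h2
  · have h3 : max 1 (Real.log L) ≤ 2 := max_le (by norm_num) h2
    linarith
  · have h3 : max 1 (Real.log L) = Real.log L := max_eq_right (by linarith)
    rw [h3]
    refine le_trans ?_ (le_max_right _ _)
    rw [Real.log_div (by positivity) (by norm_num)]
    have := Real.log_two_lt_d9
    linarith

lemma psi_bd {c' h D : ℝ} (hc0 : 0 < c') (hc1 : c' ≤ 1) (h0 : 0 ≤ h) (h1 : h ≤ hs)
    (hD0 : 0 ≤ D) (hD : D ≤ 2 * c' * phi h) : psi D ≤ 6 * c' ^ (7/4 : ℝ) * h := by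
  rcases h0.eq_or_lt with h2 | h2
  · rw [← h2, phi_zero, mul_zero] at hD
    rw [le_antisymm hD hD0, psi_zero, ← h2]
    simp
  have hl := ll_pos h
  have hp : 0 < phi h := by unfold phi; positivity
  have hp2 := phi_small h2 h1
  obtain ⟨y, hy⟩ : ∃ y, y = 2 * c' * phi h := ⟨_, rfl⟩
  have hy0 : 0 < y := by rw [hy]; positivity
  have hy1 : y ≤ h ^ (1/2 : ℝ) := by
    rw [hy]
    refine le_trans ?_ hp2
    nlinarith
  have hr1 : h ^ (1/2 : ℝ) ≤ 1 := Real.rpow_le_one h0 (h1.trans hs_le_one) (by norm_num)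
  have e1 : psi D ≤ psi y := psi_mono hD0 (by rw [hy]; exact hD) (hy1.trans hr1)
  have e2 : ll h / 2 ≤ ll y := (ll_half h2 h1).trans (ll_anti hy0 hy1 hr1)
  refine e1.trans ?_
  unfold psi
  have e3 : y ^ (7/4 : ℝ) = (2 * c') ^ (7/4 : ℝ) * (h * ll h ^ (3/4 : ℝ)) := by
    rw [hy, Real.mul_rpow (by positivity) hp.le]
    congr 1
    unfold phi
    rw [Real.mul_rpow (by positivity) (by positivity), ← Real.rpow_mul h0, ← Real.rpow_mul hl.le]
    norm_num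
  have e4 : (ll h / 2) ^ (3/4 : ℝ) ≤ ll y ^ (3/4 : ℝ) := by gcongr
  rw [e3]
  have e5 : (2 * c') ^ (7/4 : ℝ) * (h * ll h ^ (3/4 : ℝ)) / ll y ^ (3/4 : ℝ) ≤
      (2 * c') ^ (7/4 : ℝ) * (h * ll h ^ (3/4 : ℝ)) / (ll h / 2) ^ (3/4 : ℝ) := by gcongr
  refine e5.trans ?_
  rw [Real.div_rpow hl.le (by norm_num), Real.mul_rpow (by norm_num) hc0.le]
  have e6 : (2:ℝ) ^ (7/4 : ℝ) * 2 ^ (3/4 : ℝ) ≤ 6 := by
    rw [← Real.rpow_add (by norm_num)]
    norm_num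
    have e7 : ((2:ℝ) ^ (5/2 : ℝ)) ^ (2 : ℕ) ≤ 6 ^ (2 : ℕ) := by
      rw [← Real.rpow_natCast, ← Real.rpow_mul (by norm_num)]
      norm_num
    exact le_of_sq_le_sq e7 (by norm_num)
  have e8 : 0 < ll h ^ (3/4 : ℝ) := by positivity
  have e9 : (2:ℝ) ^ (7/4 : ℝ) * c' ^ (7/4 : ℝ) * (h * ll h ^ (3/4 : ℝ)) /
      (ll h ^ (3/4 : ℝ) / 2 ^ (3/4 : ℝ)) =
      ((2:ℝ) ^ (7/4 : ℝ) * 2 ^ (3/4 : ℝ)) * (c' ^ (7/4 : ℝ) * h) := by
    field_simp
  rw [e9]
  have e10 : 0 ≤ c' ^ (7/4 : ℝ) * h := by positivity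
  nlinarith

end Pool.Agent.Y812.EV
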